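import Mathlib
import Pool.Agent.Hhelper17.Lift.Codim
import Pool.Agent.Hhelper17.Lift.Lifts
import Pool.Agent.Hhelper17.Lift.Final

/-!
# The set of arcs with infinitely many lifts can have positive measure

We disprove the conjecture of `MP_d9eb96_ag`. The stack is the quotient of the space of `2 × 3`
matrices by left multiplication with `SL₂`, and its good moduli space is affine `3`-space (the three
maximal minors).
-/

set_option linter.all false

namespace Pool.Agent.Results.MP_d9eb96_ag.SpecialPositiveMeasure

open Pool.Agent.Hhelper17.Lift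

universe u

/-- There is a quotient stack `𝒳 = [Spec A / G]` over `k` by a linear algebraic group, with
`Spec A` an affine space of dimension `6`, and a good moduli space `π : 𝒳 → A³`, which is an
isomorphism over the complement of the origin and has an exceptional locus of codimension at
least `2`, all of whose stabilizers are special, such that the set `sep_π⁻¹(0)` of arcs is
measurable and its motivic measure is not zero. -/
theorem result (k : Type u) [Field k] [IsAlgClosed k] [CharZero k] :
    ∃ (G : GroupFunctor k) (A : CAlg k) (X : GAction G A) (π : (Poly k 3).Hom A),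
      G.IsLinearAlgebraic ∧ Nonempty (A ≃ₐ[k] Poly k 6) ∧ IsGoodModuliSpace X π ∧
      (∀ j, IsIsoOver X π (Poly.T k j)) ∧
      (∀ P : Ideal A, P.IsPrime → (∀ j, π (Poly.T k j) ∈ P) → 2 ≤ P.height) ∧
      (∀ (K : CAlg k) (x : A.Hom K), IsField K → (stabilizer X K x).IsSpecial) ∧
      (∃ a : Mhat k, HasMeasure {p : ArcSpace k 3 | sep X π p = 0} a) ∧
      ∀ a : Mhat k, HasMeasure {p : ArcSpace k 3 | sep X π p = 0} a → a ≠ toHat k 0 := by
  have hS : {p : ArcSpace k 3 | sep (mat23 k) (plMap k) p = 0} = orig k 3 := by
    ext p
    exact sep_eq_zero_iff p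
  refine ⟨SL2 k, M23 k, mat23 k, plMap k, SL2_linearAlgebraic k,
    ⟨MvPolynomial.renameEquiv k (finProdFinEquiv : Fin 2 × Fin 3 ≃ Fin 6)⟩, mat23_isGood k,
    mat23_isIsoOver k, two_le_height, fun K x hK => stabilizer_special K hK x, ?_, ?_⟩
  · rw [hS]
    exact hasMeasure_zero
  · rw [hS]
    exact measure_ne_zero

end Pool.Agent.Results.MP_d9eb96_ag.SpecialPositiveMeasure
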